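import Pool.Graph.R_pool_sql_team_seeded_843ab51a.V11134.RB.Plus2

/-!
# Rainbow copies of the guest with a matching, for colourings with several surplus colours

This generalises the library's lemma `plus_rainbow` (one surplus colour).
-/

set_option autoImplicit false

namespace Pool.Agent.KS6_95.RG

open Finset Pool.Agent.V11134.RB

variable {V W : Type}

/-- Main lemma: if the two restrictions have a rainbow copy of `H`, then a colouring with `d + j` colours
of the two copies and many stars has a rainbow copy of `H` together with a matching of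
`d + 1 - e(H)` edges. -/
theorem plus_rainbow' [Finite V] [Fintype W] {H : SimpleGraph V} {G : SimpleGraph W} {d j L : ℕ}
    (hj : 1 ≤ j) (hL : (j + 1) * (d + 1) < L)
    {c : Sym2 ((Bool × W) ⊕ (Fin L × Option (Fin d))) → ℕ}
    (hc : IsProper (plusHost G L d) c)
    (hnum : numColours (plusHost G L d) c = d + j)
    (hrb : ∀ b, HasRainbow H G (restr c b)) :
    HasRainbow (plusGuest H (d + 1 - H.edgeSet.ncard)) (plusHost G L d) c := by
  classical
  have hfin : (c '' (plusHost G L d).edgeSet).Finite := (Set.toFinite _).image _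
  set C : Finset ℕ := hfin.toFinset with hCdef
  have hCcard : C.card = d + j := by
    rw [← hnum, hCdef]
    exact (Set.ncard_eq_toFinset_card _ hfin).symm
  have hC : ∀ u v, (plusHost G L d).Adj u v → c s(u, v) ∈ C := by
    intro u v h
    rw [hCdef, Set.Finite.mem_toFinset]
    exact ⟨_, h, rfl⟩
  have hCex : ∀ q ∈ C, ∃ u v, (plusHost G L d).Adj u v ∧ c s(u, v) = q := by
    intro q hq
    rw [hCdef, Set.Finite.mem_toFinset] at hq
    obtain ⟨x, hx, rfl⟩ := hq
    induction x using Sym2.ind with
    | _ u v => exact ⟨u, v, hx, rfl⟩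
  -- star copies
  have hstar_adj : ∀ (l : Fin L) (i : Fin d),
      (plusHost G L d).Adj (.inr (l, none)) (.inr (l, some i)) :=
    fun l i => ⟨rfl, Or.inl ⟨rfl, by simp⟩⟩
  set St : Fin L → Finset ℕ := fun l =>
    (univ : Finset (Fin d)).image (fun i => c s(.inr (l, none), .inr (l, some i))) with hSt
  have hStC : ∀ l, St l ⊆ C := by
    intro l q hq
    obtain ⟨i, -, rfl⟩ := Finset.mem_image.1 hq
    exact hC _ _ (hstar_adj l i)
  have hStcard : ∀ l, (St l).card = d := by
    intro l
    have hinj : Function.Injective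
        (fun i => c s(.inr (l, none), .inr (l, some i)) : Fin d → ℕ) := by
      intro i j h
      by_contra hne
      exact hc.ne (hstar_adj l i) (hstar_adj l j) (by simpa using hne) h
    simp only [hSt]
    rw [Finset.card_image_of_injective _ hinj]
    simp
  have hmiss : ∀ l, (C \ St l).card = j := by
    intro l
    rw [Finset.card_sdiff_of_subset (hStC l), hCcard, hStcard]
    omega
  -- at most `j` rare colours
  set R : Finset ℕ := C.filter (fun q => ¬ d + 2 ≤ (univ.filter (fun l => q ∈ St l)).card) with hR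
  set NR : Finset ℕ := C.filter (fun q => d + 2 ≤ (univ.filter (fun l => q ∈ St l)).card) with hNR
  have hRj : R.card ≤ j := by
    by_contra hcon
    obtain ⟨R', hR'R, hR'⟩ := Finset.exists_subset_card_eq (show j + 1 ≤ R.card by omega)
    have hcov : (univ : Finset (Fin L)) ⊆ R'.biUnion (fun q => univ.filter (fun l => q ∈ St l)) := by
      intro l _
      by_contra hl
      simp only [Finset.mem_biUnion, Finset.mem_filter, Finset.mem_univ, true_and, not_exists,
        not_and] at hl
      have h1 : R' ⊆ C \ St l := fun q hq => Finset.mem_sdiff.2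
        ⟨(Finset.mem_filter.1 (hR'R hq)).1, hl q hq⟩
      have h2 := Finset.card_le_card h1
      rw [hmiss, hR'] at h2
      omega
    have h1 := (Finset.card_le_card hcov).trans Finset.card_biUnion_le
    have h2 : ∑ q ∈ R', (univ.filter (fun l => q ∈ St l)).card ≤ R'.card • (d + 1) := by
      apply Finset.sum_le_card_nsmul
      intro q hq
      have := (Finset.mem_filter.1 (hR'R hq)).2
      omega
    rw [Finset.card_univ, Fintype.card_fin] at h1
    rw [hR', smul_eq_mul] at h2
    omega
  have hsum : NR.card + R.card = d + j := by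
    rw [← hCcard, hR, hNR, Finset.card_filter_add_card_filter_not]
  have hrare : ∃ q0 ∈ C, ∃ N ⊆ C, d + 1 ≤ N.card ∧
      ∀ q ∈ N, q ≠ q0 → d + 2 ≤ (univ.filter (fun l => q ∈ St l)).card := by
    by_cases hbig : d + 1 ≤ NR.card
    · obtain ⟨q0, hq0⟩ := Finset.card_pos.1 (show 0 < NR.card by omega)
      exact ⟨q0, (Finset.mem_filter.1 hq0).1, NR, Finset.filter_subset _ _, hbig,
        fun q hq _ => (Finset.mem_filter.1 hq).2⟩
    · obtain ⟨q0, hq0⟩ := Finset.card_pos.1 (show 0 < R.card by omega)
      refine ⟨q0, (Finset.mem_filter.1 hq0).1, insert q0 NR, ?_, ?_, ?_⟩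
      · intro q hq
        rcases Finset.mem_insert.1 hq with rfl | hq
        · exact (Finset.mem_filter.1 hq0).1
        · exact (Finset.mem_filter.1 hq).1
      · rw [Finset.card_insert_of_notMem]
        · omega
        · intro h
          exact (Finset.mem_filter.1 hq0).2 (Finset.mem_filter.1 h).2
      · intro q hq hne
        rcases Finset.mem_insert.1 hq with h | hq
        · exact absurd h hne
        · exact (Finset.mem_filter.1 hq).2
  obtain ⟨q0, hq0, N, hNC, hNcard, hcommon⟩ := hrare
  obtain ⟨u0, v0, huv0, hcol0⟩ := hCex q0 hq0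
  -- choice of the copy of the host
  obtain ⟨b, hb⟩ : ∃ b : Bool, lab u0 ≠ .inl b := by
    rcases hl : lab u0 with b' | l
    · refine ⟨!b', ?_⟩
      cases b' <;> simp
    · exact ⟨true, by simp⟩
  obtain ⟨f, hfinj, hfadj, hfcol⟩ := hrb b
  have hfinH : (((fun x => restr c b (x.map f)) '' H.edgeSet)).Finite := (Set.toFinite _).image _
  set CH : Finset ℕ := hfinH.toFinset with hCH
  have hCHcard : CH.card = H.edgeSet.ncard := by
    have h1 : ((fun x => restr c b (x.map f)) '' H.edgeSet).ncard = CH.card :=
      Set.ncard_eq_toFinset_card _ hfinH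
    rw [← h1]
    exact Set.InjOn.ncard_image hfcol
  have hCHC : CH ⊆ C := by
    intro q hq
    rw [hCH, Set.Finite.mem_toFinset] at hq
    obtain ⟨x, hx, rfl⟩ := hq
    induction x using Sym2.ind with
    | _ u v => exact hC (.inl (b, f u)) (.inl (b, f v)) ⟨rfl, hfadj u v hx⟩
  obtain ⟨Q, hQN, hQcard⟩ := Finset.exists_subset_card_eq
    (show d + 1 - H.edgeSet.ncard ≤ (N \ CH).card by
      have := Finset.le_card_sdiff CH N
      omega)
  have hQC : ∀ q ∈ Q, q ∈ N := fun q hq => (Finset.mem_sdiff.1 (hQN hq)).1
  -- the labels, by Hall's theorem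
  let tt : {q // q ∈ Q} → Finset (Bool ⊕ Fin L) := fun q =>
    if q.1 = q0 then {lab u0} else
      ((univ.filter (fun l => q.1 ∈ St l)).image Sum.inr).erase (lab u0)
  have htt : ∀ q : {q // q ∈ Q}, q.1 ≠ q0 → d + 1 ≤ (tt q).card := by
    intro q hq
    have h1 := hcommon q.1 (hQC _ q.2) hq
    have h2 : (tt q) = ((univ.filter (fun l => q.1 ∈ St l)).image Sum.inr).erase (lab u0) :=
      if_neg hq
    rw [h2]
    have h3 := Finset.pred_card_le_card_erase (a := lab u0)
      (s := (univ.filter (fun l => q.1 ∈ St l)).image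
        (Sum.inr : Fin L → Bool ⊕ Fin L))
    rw [Finset.card_image_of_injective _ Sum.inr_injective] at h3
    omega
  have hhall : ∀ s : Finset {q // q ∈ Q}, s.card ≤ (s.biUnion tt).card := by
    intro s
    by_cases hs : ∃ q ∈ s, q.1 ≠ q0
    · obtain ⟨q, hqs, hq⟩ := hs
      have h1 : s.card ≤ Q.card := by
        have := Finset.card_le_univ s
        simpa using this
      have h2 : Q.card ≤ d + 1 := by omega
      have h3 := Finset.card_le_card (Finset.subset_biUnion_of_mem tt hqs)
      have h4 := htt q hq
      omega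
    · push Not at hs
      have h1 : s.card ≤ 1 := by
        rw [Finset.card_le_one]
        intro q hq q' hq'
        exact Subtype.ext ((hs q hq).trans (hs q' hq').symm)
      rcases s.eq_empty_or_nonempty with rfl | ⟨q, hqs⟩
      · simp
      · have h2 : 1 ≤ (tt q).card := by
          have : tt q = {lab u0} := if_pos (hs q hqs)
          rw [this, Finset.card_singleton]
        have h3 := Finset.card_le_card (Finset.subset_biUnion_of_mem tt hqs)
        omega
  obtain ⟨lam, hlaminj, hlam⟩ := (Finset.all_card_le_biUnion_card_iff_exists_injective tt).1 hhall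
  -- the edges of the matching
  have hedge : ∀ q : {q // q ∈ Q}, ∃ u v, (plusHost G L d).Adj u v ∧ c s(u, v) = q.1 ∧
      lab u = lam q ∧ lab v = lam q ∧ lam q ≠ .inl b := by
    intro q
    by_cases hq : q.1 = q0
    · have h1 : tt q = {lab u0} := if_pos hq
      have h2 := hlam q
      rw [h1, Finset.mem_singleton] at h2
      exact ⟨u0, v0, huv0, hcol0.trans hq.symm, h2.symm, (lab_eq_of_adj huv0).symm.trans h2.symm,
        by rw [h2]; exact hb⟩
    · have h1 : (tt q) = ((univ.filter (fun l => q.1 ∈ St l)).image Sum.inr).erase (lab u0) :=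
        if_neg hq
      have h2 := hlam q
      rw [h1, Finset.mem_erase, Finset.mem_image] at h2
      obtain ⟨-, l, hl, hl'⟩ := h2
      obtain ⟨i, -, hi⟩ := Finset.mem_image.1 (Finset.mem_filter.1 hl).2
      exact ⟨_, _, hstar_adj l i, hi, hl', hl', by rw [← hl']; simp⟩
  choose U V' hUV hUVcol hU hV' hlamb using hedge
  let eQ : Fin (d + 1 - H.edgeSet.ncard) ≃ {q // q ∈ Q} :=
    (Fintype.equivFinOfCardEq (by simpa using hQcard)).symm
  let F : V ⊕ (Fin (d + 1 - H.edgeSet.ncard) × Bool) →
      (Bool × W) ⊕ (Fin L × Option (Fin d)) := fun x => match x with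
    | .inl v => .inl (b, f v)
    | .inr (i, false) => U (eQ i)
    | .inr (i, true) => V' (eQ i)
  have hFlab : ∀ i a, lab (F (.inr (i, a))) = lam (eQ i) := by
    intro i a
    cases a
    · exact hU _
    · exact hV' _
  have hFlab' : ∀ v, lab (F (.inl v)) = .inl b := fun v => rfl
  refine ⟨F, ?_, ?_, ?_⟩
  · intro x y hxy
    rcases x with v | ⟨i, a⟩ <;> rcases y with w | ⟨j, a'⟩
    · have : f v = f w := by simpa [F] using hxy
      rw [hfinj this]
    · exfalso
      have := congrArg lab hxy
      rw [hFlab, hFlab'] at this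
      exact hlamb _ this.symm
    · exfalso
      have := congrArg lab hxy
      rw [hFlab, hFlab'] at this
      exact hlamb _ this
    · have h1 := congrArg lab hxy
      rw [hFlab, hFlab] at h1
      have h2 := eQ.injective (hlaminj h1)
      subst h2
      cases a <;> cases a'
      · rfl
      · exact absurd hxy (hUV (eQ i)).ne
      · exact absurd hxy.symm (hUV (eQ i)).ne
      · rfl
  · intro x y hxy
    rcases x with v | ⟨i, a⟩ <;> rcases y with w | ⟨j, a'⟩
    · exact ⟨rfl, hfadj v w hxy⟩
    · exact hxy.elim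
    · exact hxy.elim
    · obtain ⟨h1, h2⟩ := hxy
      simp only at h1 h2
      subst h1
      cases a <;> cases a'
      · exact absurd rfl h2
      · exact hUV (eQ i)
      · exact (hUV (eQ i)).symm
      · exact absurd rfl h2
  · have hin : ∀ y ∈ H.edgeSet, c ((y.map Sum.inl).map F) = restr c b (y.map f) := by
      intro y _
      simp only [restr]
      rw [Sym2.map_map, Sym2.map_map]
      rfl
    have hinCH : ∀ y ∈ H.edgeSet, c ((y.map Sum.inl).map F) ∈ CH := by
      intro y hy
      rw [hin y hy, hCH, Set.Finite.mem_toFinset]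
      exact ⟨y, hy, rfl⟩
    have hm : ∀ i, c (Sym2.map F s(.inr (i, false), .inr (i, true))) = (eQ i).1 :=
      fun i => hUVcol (eQ i)
    have hmQ : ∀ i, c (Sym2.map F s(.inr (i, false), .inr (i, true))) ∉ CH := by
      intro i
      rw [hm i]
      exact (Finset.mem_sdiff.1 (hQN (eQ i).2)).2
    intro x hx y hy hxy
    simp only at hxy
    rcases mem_plusGuest hx with ⟨x', hx', rfl⟩ | ⟨i, rfl⟩ <;>
      rcases mem_plusGuest hy with ⟨y', hy', rfl⟩ | ⟨j, rfl⟩
    · rw [hin x' hx', hin y' hy'] at hxy
      rw [hfcol hx' hy' hxy]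
    · exact absurd (hxy ▸ hinCH x' hx') (hmQ j)
    · exact absurd (hxy ▸ hinCH y' hy') (hmQ i)
    · rw [hm, hm] at hxy
      rw [eQ.injective (Subtype.ext hxy)]

end Pool.Agent.KS6_95.RG
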